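import Mathlib
import Pool.Agent.BSAuto.Gen

set_option autoImplicit false

namespace Pool.Agent.Results.MP_f0b7c6_al.NotAutomatic

/-- The word `t a^3 t^-1 a^-5` in the free group on `a = of 0` and `t = of 1`. -/
def relator : FreeGroup (Fin 2) :=
  FreeGroup.of 1 * FreeGroup.of 0 ^ 3 * (FreeGroup.of 1)⁻¹ * (FreeGroup.of 0 ^ 5)⁻¹

/-- The one-relator group `< a, t | t a^3 t^-1 = a^5 >`. -/
abbrev G35 : Type := PresentedGroup ({relator} : Set (FreeGroup (Fin 2)))

/-- A group is metabelian if its commutator subgroup is abelian. -/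
def IsMetabelian (H : Type) [Group H] : Prop :=
  ∀ x ∈ commutator H, ∀ y ∈ commutator H, x * y = y * x

/-- The padded pair of two words: the input of a two-tape automaton which reads both words
synchronously, the shorter one being padded at its end with the symbol `none`. -/
def pad {α : Type} : List α → List α → List (Option α × Option α)
  | [], [] => []
  | a :: u, [] => (some a, none) :: pad u []
  | [], b :: v => (none, some b) :: pad [] v
  | a :: u, b :: v => (some a, some b) :: pad u v

/-- `L` is (the language of) an automatic structure on `G` over the alphabet `α`, whose letters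
are read in `G` through `val`: `L` is regular, it maps onto `G`, and for `g = 1` and for `g` the
value of any letter the set of the padded pairs of words `u, v` in `L` with `u g = v` in `G` is
regular (accepted by a finite automaton over the alphabet of pairs). -/
def IsAutomaticStructure {G : Type} [Group G] {α : Type} (val : α → G) (L : Language α) : Prop :=
  L.IsRegular ∧
  (∀ g : G, ∃ w ∈ L, (w.map val).prod = g) ∧
  ∀ g : G, g = 1 ∨ g ∈ Set.range val →
    Language.IsRegular ({z | ∃ u ∈ L, ∃ v ∈ L,
      (u.map val).prod * g = (v.map val).prod ∧ z = pad u v} : Language (Option α × Option α))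

/-- `G` is automatic: for some finite generating set `A` there is an automatic structure over
the alphabet `A ∪ A⁻¹`. -/
def IsAutomatic (G : Type) [Group G] : Prop :=
  ∃ A : Set G, A.Finite ∧ Subgroup.closure A = ⊤ ∧
    ∃ L : Language (↥(A ∪ A⁻¹)), IsAutomaticStructure (Subtype.val : ↥(A ∪ A⁻¹) → G) L

lemma fst_take_pad {α : Type} : ∀ (u v : List α) (t : ℕ),
    ((pad u v).take t).filterMap Prod.fst = u.take t
  | [], [], t => by simp [pad]
  | a :: u, [], 0 => by simp
  | a :: u, [], t + 1 => by
    rw [pad, List.take_succ_cons, List.take_succ_cons, List.filterMap_cons, fst_take_pad u [] t]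
  | [], b :: v, 0 => by simp
  | [], b :: v, t + 1 => by
    rw [pad, List.take_succ_cons, List.filterMap_cons, fst_take_pad [] v t]
    simp
  | a :: u, b :: v, 0 => by simp
  | a :: u, b :: v, t + 1 => by
    rw [pad, List.take_succ_cons, List.take_succ_cons, List.filterMap_cons, fst_take_pad u v t]

lemma snd_take_pad {α : Type} : ∀ (u v : List α) (t : ℕ),
    ((pad u v).take t).filterMap Prod.snd = v.take t
  | [], [], t => by simp [pad]
  | a :: u, [], 0 => by simp
  | a :: u, [], t + 1 => by
    rw [pad, List.take_succ_cons, List.filterMap_cons, snd_take_pad u [] t]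
    simp
  | [], b :: v, 0 => by simp
  | [], b :: v, t + 1 => by
    rw [pad, List.take_succ_cons, List.take_succ_cons, List.filterMap_cons, snd_take_pad [] v t]
  | a :: u, b :: v, 0 => by simp
  | a :: u, b :: v, t + 1 => by
    rw [pad, List.take_succ_cons, List.take_succ_cons, List.filterMap_cons, snd_take_pad u v t]

lemma fst_pad {α : Type} (u v : List α) : (pad u v).filterMap Prod.fst = u := by
  have h := fst_take_pad u v (max (pad u v).length u.length)
  rwa [List.take_of_length_le (le_max_left _ _), List.take_of_length_le (le_max_right _ _)] at h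

lemma snd_pad {α : Type} (u v : List α) : (pad u v).filterMap Prod.snd = v := by
  have h := snd_take_pad u v (max (pad u v).length v.length)
  rwa [List.take_of_length_le (le_max_left _ _), List.take_of_length_le (le_max_right _ _)] at h

/-- Live states reach acceptance along short words. -/
lemma exists_short {β σ : Type} [Fintype σ] (M : DFA β σ) :
    ∃ N : ℕ, ∀ q : σ, (∃ z, M.evalFrom q z ∈ M.accept) →
      ∃ z, z.length ≤ N ∧ M.evalFrom q z ∈ M.accept := by
  classical
  have h : ∀ q : σ, ∃ n : ℕ, (∃ z, M.evalFrom q z ∈ M.accept) →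
      ∃ z, z.length ≤ n ∧ M.evalFrom q z ∈ M.accept := by
    intro q
    by_cases hq : ∃ z, M.evalFrom q z ∈ M.accept
    · obtain ⟨z, hz⟩ := hq
      exact ⟨z.length, fun _ => ⟨z, le_rfl, hz⟩⟩
    · exact ⟨0, fun h => absurd h hq⟩
  choose f hf using h
  refine ⟨∑ q, f q, fun q hq => ?_⟩
  obtain ⟨z, hz1, hz2⟩ := hf q hq
  exact ⟨z, hz1.trans (Finset.single_le_sum (f := f) (fun _ _ => Nat.zero_le _)
    (Finset.mem_univ q)), hz2⟩

/-- A synchronous two-tape automaton gives a bounded correction between prefixes. -/
lemma correction {G : Type} [Group G] {α : Type} (val : α → G) (L : Language α) (g : G)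
    (h : Language.IsRegular ({z | ∃ u ∈ L, ∃ v ∈ L,
      (u.map val).prod * g = (v.map val).prod ∧ z = pad u v} : Language (Option α × Option α))) :
    ∃ N : ℕ, ∀ u ∈ L, ∀ v ∈ L, (u.map val).prod * g = (v.map val).prod → ∀ t : ℕ,
      ∃ x y : List α, x.length ≤ N ∧ y.length ≤ N ∧
        ((u.take t).map val).prod * ((x.map val).prod * g * ((y.map val).prod)⁻¹) =
          ((v.take t).map val).prod := by
  obtain ⟨σ, hσ, M, hM⟩ := h
  obtain ⟨N, hN⟩ := exists_short M
  refine ⟨N, fun u hu v hv huv t => ?_⟩
  have hacc : pad u v ∈ M.accepts := by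
    rw [hM]; exact ⟨u, hu, v, hv, huv, rfl⟩
  have hlive : ∃ z, M.evalFrom (M.eval ((pad u v).take t)) z ∈ M.accept := by
    refine ⟨(pad u v).drop t, ?_⟩
    rw [DFA.eval, ← DFA.evalFrom_of_append, List.take_append_drop]
    exact (DFA.mem_accepts M).1 hacc
  obtain ⟨z, hz1, hz2⟩ := hN _ hlive
  have hacc' : (pad u v).take t ++ z ∈ M.accepts := by
    rw [DFA.mem_accepts, DFA.eval, DFA.evalFrom_of_append]
    exact hz2
  rw [hM] at hacc'
  obtain ⟨u', hu', v', hv', huv', hz⟩ := hacc'
  have e1 : u' = u.take t ++ z.filterMap Prod.fst := by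
    rw [← fst_pad u' v', ← hz, List.filterMap_append, fst_take_pad]
  have e2 : v' = v.take t ++ z.filterMap Prod.snd := by
    rw [← snd_pad u' v', ← hz, List.filterMap_append, snd_take_pad]
  refine ⟨z.filterMap Prod.fst, z.filterMap Prod.snd,
    (List.length_filterMap_le _ _).trans hz1, (List.length_filterMap_le _ _).trans hz1, ?_⟩
  rw [e1, e2, List.map_append, List.map_append, List.prod_append, List.prod_append] at huv'
  rw [← mul_assoc, ← mul_assoc, mul_inv_eq_iff_eq_mul]
  exact huv'

/-- `< a, t | t a^3 t^-1 = a^5 >` has no automatic structure over any finite alphabet. -/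
lemma not_structure {α : Type} [Finite α] (val : α → G35) (L : Language α) :
    ¬ IsAutomaticStructure val L := by
  classical
  rintro ⟨⟨σ, hσ, M, hM⟩, hsurj, hreg⟩
  have := Fintype.ofFinite α
  have hsur0 : ∀ g : G35, ∃ w : Pool.Agent.BSAuto.Wo, Pool.Agent.BSAuto.ev w = g := by
    intro g
    obtain ⟨f, hf⟩ := PresentedGroup.mk_surjective ({Pool.Agent.BSAuto.r0} : Set _) g
    refine ⟨f.toWord, ?_⟩
    rw [Pool.Agent.BSAuto.ev, FreeGroup.mk_toWord]; exact hf
  -- the finitely many multipliers, indexed by `Option α`
  let mu : Option α → G35 := fun o => o.elim 1 val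
  have hmu : ∀ o, mu o = 1 ∨ mu o ∈ Set.range val := by
    intro o
    cases o with
    | none => exact Or.inl rfl
    | some a => exact Or.inr ⟨a, rfl⟩
  choose N hN using fun o => correction val L (mu o) (hreg _ (hmu o))
  choose rho hrho using fun x => hsur0 (val x)
  choose rmu hrmu using fun o => hsur0 (mu o)
  set C0 := ∑ x, (rho x).length with hC0d
  have hC0 : ∀ x, (rho x).length ≤ C0 := fun x =>
    Finset.single_le_sum (f := fun x => (rho x).length) (fun _ _ => Nat.zero_le _)
      (Finset.mem_univ x)
  set N0 := ∑ o, N o with hN0d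
  have hN0 : ∀ o, N o ≤ N0 := fun o =>
    Finset.single_le_sum (f := N) (fun _ _ => Nat.zero_le _) (Finset.mem_univ o)
  set R0 := ∑ o, (rmu o).length with hR0d
  have hR0 : ∀ o, (rmu o).length ≤ R0 := fun o =>
    Finset.single_le_sum (f := fun o => (rmu o).length) (fun _ _ => Nat.zero_le _)
      (Finset.mem_univ o)
  have key : ∀ (o : Option α) (u v : List α), u ∈ L → v ∈ L →
      (u.map val).prod * mu o = (v.map val).prod →
      ∀ t : ℕ, ∃ w : Pool.Agent.BSAuto.Wo, w.length ≤ C0 * N0 + R0 + C0 * N0 ∧
        Pool.Agent.BSAuto.evA val (u.take t) * Pool.Agent.BSAuto.ev w =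
          Pool.Agent.BSAuto.evA val (v.take t) := by
    intro o u v hu hv huv t
    obtain ⟨x, y, hx, hy, hxy⟩ := hN o u hu v hv huv t
    refine ⟨x.flatMap rho ++ rmu o ++ FreeGroup.invRev (y.flatMap rho), ?_, ?_⟩
    · rw [List.length_append, List.length_append, FreeGroup.invRev_length]
      have h1 := Pool.Agent.BSAuto.length_rho hC0 x
      have h2 := Pool.Agent.BSAuto.length_rho hC0 y
      have h3 := Nat.mul_le_mul_left C0 (hx.trans (hN0 o))
      have h4 := Nat.mul_le_mul_left C0 (hy.trans (hN0 o))
      have h5 := hR0 o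
      omega
    · rw [Pool.Agent.BSAuto.ev_append, Pool.Agent.BSAuto.ev_append, hrmu,
        Pool.Agent.BSAuto.ev_rho hrho]
      have h6 : Pool.Agent.BSAuto.ev (FreeGroup.invRev (y.flatMap rho)) =
          (Pool.Agent.BSAuto.evA val y)⁻¹ := by
        rw [← Pool.Agent.BSAuto.ev_rho hrho, Pool.Agent.BSAuto.ev, Pool.Agent.BSAuto.ev,
          ← FreeGroup.inv_mk, map_inv]
      rw [h6]
      exact hxy
  subst hM
  refine Pool.Agent.BSAuto.not_automatic' val M ?_ (C0 * N0 + R0 + C0 * N0) ?_
  · intro g
    obtain ⟨w, hw, hwg⟩ := hsurj g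
    exact ⟨w, hw, hwg⟩
  · intro u v hu hv huv
    rcases huv with huv | ⟨x, hx⟩
    · exact key none u v hu hv (by
        change _ * (1 : G35) = _
        rw [mul_one]; exact huv)
    · exact key (some x) u v hu hv hx

lemma derived_two {H : Type} [Group H] (hH : IsMetabelian H) : derivedSeries H 2 = ⊥ := by
  rw [derivedSeries_succ, derivedSeries_one, Subgroup.commutator_eq_bot_iff_le_centralizer]
  intro x hx
  rw [Subgroup.mem_centralizer_iff]
  intro y hy
  exact hH y hy x hx

/-- The one-relator group `G35 = < a, t | t a^3 t^-1 = a^5 >` has only abelian metabelian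
subgroups and is not automatic; indeed it has no automatic structure over any finite alphabet. -/
theorem result :
    (∀ H : Subgroup G35, IsMetabelian ↥H → ∀ x y : ↥H, x * y = y * x) ∧
    ¬ IsAutomatic G35 ∧
    ∀ (α : Type) [Finite α] (val : α → G35) (L : Language α), ¬ IsAutomaticStructure val L := by
  refine ⟨fun H hH => ?_, ?_, fun α _ val L => not_structure val L⟩
  · exact Pool.Agent.BSAuto.metabelian_abelian H (derived_two hH)
  · rintro ⟨A, hA, -, L, hL⟩
    have : Finite ↥(A ∪ A⁻¹) := (hA.union hA.inv).to_subtype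
    exact not_structure _ L hL

end Pool.Agent.Results.MP_f0b7c6_al.NotAutomatic
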